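import Pool.Agent.Helper6_Eng.Stmts

set_option autoImplicit false

namespace Pool.Agent.Eng.H39

open Matrix

variable {F V : Type} [Field F] [AddCommGroup V] [Module F V]

theorem skew (ω : V →ₗ[F] V →ₗ[F] F) (h : ∀ v, ω v v = 0) (u v : V) : ω u v = - ω v u := by
  have h1 := h (u + v)
  simp only [map_add, LinearMap.add_apply, h, zero_add, add_zero] at h1
  exact eq_neg_of_add_eq_zero_right h1

/-- A family with the Gram relations of `J`. -/
def Fam (ω : V →ₗ[F] V →ₗ[F] F) (m : ℕ) (a b : Fin m → V) : Prop :=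
  (∀ i j, ω (a i) (a j) = 0) ∧ (∀ i j, ω (b i) (b j) = 0) ∧
    (∀ i j, ω (a i) (b j) = if i = j then -1 else 0)

theorem fam_step [FiniteDimensional F V] (ω : V →ₗ[F] V →ₗ[F] F) (n m : ℕ) (hω : IsSymp ω)
    (hn : Module.finrank F V = 2 * n) (hm : m < n) (a b : Fin m → V) (hf : Fam ω m a b) :
    ∃ a' b' : Fin (m + 1) → V, Fam ω (m + 1) a' b' := by
  obtain ⟨haa, hbb, hab⟩ := hf
  have hba : ∀ i j, ω (b i) (a j) = if i = j then 1 else 0 := by
    intro i j
    rw [skew ω hω.1, hab]
    by_cases h : i = j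
    · subst h; simp
    · rw [if_neg h, if_neg (fun h' => h h'.symm)]; simp
  let L : V →ₗ[F] (Fin m ⊕ Fin m → F) := LinearMap.pi (fun s => ω (Sum.elim a b s))
  have hker : LinearMap.ker L ≠ ⊥ := by
    apply LinearMap.ker_ne_bot_of_finrank_lt
    simp only [Module.finrank_fintype_fun_eq_card, Fintype.card_sum, Fintype.card_fin, hn]
    omega
  obtain ⟨u, huL, hu0⟩ := (Submodule.ne_bot_iff _).1 hker
  have hu : ∀ s, ω (Sum.elim a b s) u = 0 := by
    intro s
    have := congrFun (LinearMap.mem_ker.1 huL) s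
    simpa [L] using this
  have hau : ∀ i, ω (a i) u = 0 := fun i => hu (Sum.inl i)
  have hbu : ∀ i, ω (b i) u = 0 := fun i => hu (Sum.inr i)
  have hua : ∀ i, ω u (a i) = 0 := fun i => by rw [skew ω hω.1, hau, neg_zero]
  have hub : ∀ i, ω u (b i) = 0 := fun i => by rw [skew ω hω.1, hbu, neg_zero]
  obtain ⟨v, hv⟩ : ∃ v, ω u v ≠ 0 := by
    by_contra hcon
    push Not at hcon
    exact hu0 (hω.2 u hcon)
  set v' : V := v + ∑ i, (-(ω (b i) v) • a i + (ω (a i) v) • b i) with hv'
  have hav' : ∀ i, ω (a i) v' = 0 := by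
    intro i
    rw [hv']
    simp only [map_add, map_sum, map_smul, smul_eq_mul, haa, hab, mul_zero, zero_add]
    simp
  have hbv' : ∀ i, ω (b i) v' = 0 := by
    intro i
    rw [hv']
    simp only [map_add, map_sum, map_smul, smul_eq_mul, hbb, hba, mul_zero, add_zero]
    simp
  have huv' : ω u v' = ω u v := by
    rw [hv']
    simp [hua, hub]
  set c : F := ω u v with hc
  set w : V := (-c⁻¹) • v' with hw
  have haw : ∀ i, ω (a i) w = 0 := fun i => by rw [hw, map_smul, hav', smul_zero]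
  have hbw : ∀ i, ω (b i) w = 0 := fun i => by rw [hw, map_smul, hbv', smul_zero]
  have hwb : ∀ i, ω w (b i) = 0 := fun i => by rw [skew ω hω.1, hbw, neg_zero]
  have huw : ω u w = -1 := by
    rw [hw, map_smul, huv', smul_eq_mul, neg_mul, inv_mul_cancel₀ hv]
  refine ⟨Fin.cons u a, Fin.cons w b, ?_, ?_, ?_⟩
  · intro i j
    refine Fin.cases ?_ (fun i => ?_) i <;> refine Fin.cases ?_ (fun j => ?_) j
    · simp [hω.1]
    · simp [hua]
    · simp [hau]
    · simp [haa]
  · intro i j
    refine Fin.cases ?_ (fun i => ?_) i <;> refine Fin.cases ?_ (fun j => ?_) j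
    · simp [hω.1]
    · simp [hwb]
    · simp [hbw]
    · simp [hbb]
  · intro i j
    refine Fin.cases ?_ (fun i => ?_) i <;> refine Fin.cases ?_ (fun j => ?_) j
    · simp [huw]
    · simp [hub, (Fin.succ_ne_zero _).symm]
    · simp [haw]
    · simp [hab]

theorem exists_fam [FiniteDimensional F V] (ω : V →ₗ[F] V →ₗ[F] F) (n : ℕ) (hω : IsSymp ω)
    (hn : Module.finrank F V = 2 * n) : ∀ m, m ≤ n → ∃ a b : Fin m → V, Fam ω m a b := by
  intro m
  induction m with
  | zero =>
    intro _
    exact ⟨Fin.elim0, Fin.elim0, fun i => i.elim0, fun i => i.elim0, fun i => i.elim0⟩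
  | succ m ih =>
    intro h
    obtain ⟨a, b, hf⟩ := ih (by omega)
    exact fam_step ω n m hω hn (by omega) a b hf

theorem gram (ω : V →ₗ[F] V →ₗ[F] F) (n : ℕ) (h : ∀ v, ω v v = 0) (a b : Fin n → V)
    (hf : Fam ω n a b) (s t : Fin n ⊕ Fin n) :
    ω (Sum.elim a b s) (Sum.elim a b t) = J (Fin n) F s t := by
  obtain ⟨haa, hbb, hab⟩ := hf
  have hba : ∀ i j, ω (b i) (a j) = if i = j then 1 else 0 := by
    intro i j
    rw [skew ω h, hab]
    by_cases h : i = j
    · subst h; simp
    · rw [if_neg h, if_neg (fun h' => h h'.symm)]; simp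
  rcases s with i | i <;> rcases t with j | j
  · simp [J, haa]
  · simp only [Sum.elim_inl, Sum.elim_inr, hab, J, fromBlocks_apply₁₂, Matrix.neg_apply]
    by_cases hij : i = j
    · subst hij; simp
    · rw [if_neg hij, Matrix.one_apply_ne hij, neg_zero]
  · simp [J, hba, one_apply]
  · simp [J, hbb]

/-- SBAS -/
theorem sbas : SymBasisStmt := by
  intro F V _ _ _ _ ω n hω hn
  obtain ⟨a, b, hf⟩ := exists_fam ω n hω hn n le_rfl
  have hg := gram ω n hω.1 a b hf
  set c : Fin n ⊕ Fin n → V := Sum.elim a b with hc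
  have key : ∀ (x y : Fin n ⊕ Fin n → F), ω (∑ s, x s • c s) (∑ t, y t • c t) =
      x ⬝ᵥ ((J (Fin n) F) *ᵥ y) := by
    intro x y
    simp only [map_sum, map_smul, LinearMap.sum_apply, LinearMap.smul_apply, smul_eq_mul, hg,
      dotProduct, mulVec, Finset.mul_sum]
    rw [Finset.sum_comm]
    refine Finset.sum_congr rfl fun s _ => ?_
    refine Finset.sum_congr rfl fun t _ => ?_
    ring
  have hli : LinearIndependent F c := by
    rw [Fintype.linearIndependent_iff]
    intro x hx s
    have h0 : ∀ y : Fin n ⊕ Fin n → F, x ⬝ᵥ ((J (Fin n) F) *ᵥ y) = 0 := by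
      intro y
      rw [← key, hx]
      simp
    have h1 : x ᵥ* (J (Fin n) F) = 0 := by
      ext t
      have := h0 (Pi.single t 1)
      rw [dotProduct_mulVec] at this
      simpa using this
    have h2 : x ᵥ* ((J (Fin n) F) * (J (Fin n) F)) = 0 := by
      rw [← vecMul_vecMul, h1, zero_vecMul]
    rw [J_squared, vecMul_neg, vecMul_one] at h2
    have := congrFun h2 s
    simpa using this
  have hcard : Fintype.card (Fin n ⊕ Fin n) = Module.finrank F V := by
    rw [hn]; simp; ring
  let B := Module.Basis.mk hli (hli.span_eq_top_of_card_eq_finrank' hcard).ge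
  have hB : ∀ s, B s = c s := by
    intro s
    simp [B]
  refine ⟨B.equivFun, ?_⟩
  intro u v
  rw [← key]
  have h1 : ∀ u, ∑ s, B.equivFun u s • c s = u := by
    intro u
    simp only [← hB]
    exact B.sum_equivFun u
  rw [h1, h1]

end Pool.Agent.Eng.H39
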