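import Pool.Agent.Helper6_Eng.Stmts

set_option autoImplicit false

namespace Pool.Agent.Eng.H39

open Matrix

variable {F V : Type} [Field F] [AddCommGroup V] [Module F V]

/-- STR -/
theorem str (hB : SymBasisStmt) : SpTransStmt := by
  intro F V _ _ _ _ ω n hω hn
  obtain ⟨e, he⟩ := hB F V ω n hω hn
  let A : (V ≃ₗ[F] V) → Matrix (Fin n ⊕ Fin n) (Fin n ⊕ Fin n) F := fun g =>
    LinearMap.toMatrix' ((e.toLinearMap ∘ₗ g.toLinearMap) ∘ₗ e.symm.toLinearMap)
  have hA : ∀ g x, A g *ᵥ x = e (g (e.symm x)) := by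
    intro g x
    simp [A, LinearMap.toMatrix'_mulVec]
  have hAmul : ∀ g h, A (g * h) = A g * A h := by
    intro g h
    apply Matrix.mulVec_injective
    funext x
    rw [← Matrix.mulVec_mulVec, hA, hA, hA]
    simp
  have hAone : A 1 = 1 := by
    apply Matrix.mulVec_injective
    funext x
    rw [hA, Matrix.one_mulVec]
    simp
  have hadj : ∀ (M : Matrix (Fin n ⊕ Fin n) (Fin n ⊕ Fin n) F) (x y : Fin n ⊕ Fin n → F),
      (M *ᵥ x) ⬝ᵥ (J (Fin n) F *ᵥ (M *ᵥ y)) = x ⬝ᵥ ((Mᵀ * J (Fin n) F * M) *ᵥ y) := by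
    intro M x y
    rw [← Matrix.mulVec_mulVec, ← Matrix.mulVec_mulVec, Matrix.dotProduct_mulVec x Mᵀ,
      Matrix.vecMul_transpose]
  have hmem : ∀ g : V ≃ₗ[F] V, g ∈ SpV ω ↔ A g ∈ symplecticGroup (Fin n) F := by
    intro g
    rw [SymplecticGroup.mem_iff']
    constructor
    · intro hg
      have h0 : ∀ x y : Fin n ⊕ Fin n → F,
          x ⬝ᵥ (((A g)ᵀ * J (Fin n) F * (A g)) *ᵥ y) = x ⬝ᵥ (J (Fin n) F *ᵥ y) := by
        intro x y
        rw [← hadj, hA, hA, ← he, hg, he]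
        simp
      ext i j
      have h1 := h0 (Pi.single i 1) (Pi.single j 1)
      simpa using h1
    · intro hg u v
      rw [he, he]
      have h1 : e (g u) = A g *ᵥ (e u) := by rw [hA]; simp
      have h2 : e (g v) = A g *ᵥ (e v) := by rw [hA]; simp
      rw [h1, h2, hadj, hg]
  let f : ↥(SpV ω) →* Sp n F :=
    { toFun := fun g => ⟨A g, (hmem g).1 g.2⟩
      map_one' := Subtype.ext hAone
      map_mul' := fun g h => Subtype.ext (hAmul g h) }
  refine ⟨MulEquiv.ofBijective f ⟨?_, ?_⟩⟩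
  · intro g h hgh
    have h1 : A g = A h := congrArg Subtype.val hgh
    apply Subtype.ext
    apply LinearEquiv.ext
    intro v
    have h2 := hA g (e v)
    rw [h1, hA] at h2
    simpa using h2.symm
  · intro M
    have hM1 : (M : Matrix (Fin n ⊕ Fin n) (Fin n ⊕ Fin n) F) * ((M⁻¹ : Sp n F) : Matrix _ _ F) = 1 := by
      rw [← Submonoid.coe_mul, mul_inv_cancel, Submonoid.coe_one]
    have hM2 : ((M⁻¹ : Sp n F) : Matrix _ _ F) * (M : Matrix (Fin n ⊕ Fin n) (Fin n ⊕ Fin n) F) = 1 := by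
      rw [← Submonoid.coe_mul, inv_mul_cancel, Submonoid.coe_one]
    let g : V ≃ₗ[F] V := (e.trans (Matrix.toLin'OfInv hM2 hM1)).trans e.symm
    have hg : A g = M := by
      apply Matrix.mulVec_injective
      funext x
      rw [hA]
      simp only [g, LinearEquiv.trans_apply, LinearEquiv.apply_symm_apply]
      rfl
    refine ⟨⟨g, (hmem g).2 ?_⟩, ?_⟩
    · rw [hg]; exact M.2
    · apply Subtype.ext
      exact hg

end Pool.Agent.Eng.H39
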